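import Pool.Agent.H51.SY.C
import Pool.Agent.TH77.OfLie

set_option linter.all false

/-!
# Every compact symmetric space has property (F)
-/

open Set Filter Topology
open scoped Manifold ContDiff

namespace Pool.Agent.Results.MP_646617_gt.AllCompactSymmetric

section defs

variable {G X : Type*} [Group G] [MulAction G X]

/-- The functions on `X` which are invariant under the subgroup `Γ`. -/
def invariants (Γ : Subgroup G) : Submodule ℂ (X → ℂ) where
  carrier := {f | ∀ γ ∈ Γ, ∀ x, f (γ • x) = f x}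
  add_mem' := by
    intro f h hf hh γ hγ x
    rw [Pi.add_apply, Pi.add_apply, hf γ hγ, hh γ hγ]
  zero_mem' := fun γ _ x => rfl
  smul_mem' := by
    intro c f hf γ hγ x
    rw [Pi.smul_apply, Pi.smul_apply, hf γ hγ]

/-- Let `V μ` be the space of eigenfunctions of the Laplacian on `X` with eigenvalue `μ`. The
multiplicity of `μ` in the spectrum of `Γ \ X` is the dimension of the space of the
`Γ`-invariant elements of `V μ`. -/
noncomputable def mult (V : ℝ → Submodule ℂ (X → ℂ)) (Γ : Subgroup G) (μ : ℝ) : ℕ∞ :=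
  Cardinal.toENat (Module.rank ℂ (V μ ⊓ invariants Γ : Submodule ℂ (X → ℂ)))

/-- The sequence `a` is the list `λ₀ ≤ λ₁ ≤ ⋯` of the eigenvalues of `Γ \ X`, with
multiplicities. -/
def IsSpectrum (V : ℝ → Submodule ℂ (X → ℂ)) (Γ : Subgroup G) (a : ℕ → ℝ) : Prop :=
  Monotone a ∧ ∀ μ, {j | a j = μ}.encard = mult V Γ μ

/-- Property (F) for `X` with the action of `G` and the eigenspaces `V μ` of the Laplacian. -/
def PropertyF (G : Type*) {X : Type*} [Group G] [MulAction G X]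
    (V : ℝ → Submodule ℂ (X → ℂ)) : Prop :=
  ∀ ε : ℝ, 0 < ε → ∃ N : ℕ, ∀ Γ₁ Γ₂ : Subgroup G, Finite Γ₁ → Finite Γ₂ →
    ε < 1 / (Nat.card Γ₁ : ℝ) → ε < 1 / (Nat.card Γ₂ : ℝ) →
    ∀ a b : ℕ → ℝ, IsSpectrum V Γ₁ a → IsSpectrum V Γ₂ b →
      ((∀ μ, mult V Γ₁ μ = mult V Γ₂ μ) ↔ ∀ j < N, a j = b j)

end defs

section concrete

variable {E : Type*} [NormedAddCommGroup E] [NormedSpace ℝ E]
  {G : Type*} [TopologicalSpace G] [ChartedSpace E G] [Group G]

/-- The eigenfunctions, with eigenvalue `μ`, of the Laplace-Beltrami operator on the homogeneous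
space `G ⧸ K`. The `γ i` are the one-parameter subgroups `t ↦ exp (t Xᵢ)`, where the `Xᵢ` form an
orthonormal basis of the tangent space of `G ⧸ K` at the base point, so that the curves
`t ↦ g exp (t Xᵢ) K` are geodesics through `g K` with orthonormal velocities; the Laplacian of a
smooth function `f` at `g K` is the sum of its second derivatives along these geodesics. -/
def laplaceEigenspace (K : Subgroup G) {d : ℕ} (γ : Fin d → ℝ → G)
    (hγ : ∀ i, ContMDiff 𝓘(ℝ, ℝ) 𝓘(ℝ, E) ∞ (γ i)) [ContMDiffMul 𝓘(ℝ, E) ∞ G] (μ : ℝ) :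
    Submodule ℂ (G ⧸ K → ℂ) where
  carrier := {f | ContMDiff 𝓘(ℝ, E) 𝓘(ℝ, ℂ) ∞ (fun g : G => f (g : G ⧸ K)) ∧
    ∀ g : G, ∑ i, iteratedDeriv 2 (fun t : ℝ => f ((g * γ i t : G) : G ⧸ K)) 0
      = -(μ : ℂ) * f (g : G ⧸ K)}
  add_mem' := by
    rintro f h ⟨hf1, hf2⟩ ⟨hh1, hh2⟩
    refine ⟨hf1.add hh1, fun g => ?_⟩
    have key : ∀ (u : G ⧸ K → ℂ), ContMDiff 𝓘(ℝ, E) 𝓘(ℝ, ℂ) ∞ (fun g : G => u (g : G ⧸ K)) →
        ∀ i, ContDiffAt ℝ 2 (fun t : ℝ => u ((g * γ i t : G) : G ⧸ K)) 0 := by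
      intro u hu i
      have h1 : ContMDiff 𝓘(ℝ, ℝ) 𝓘(ℝ, E) ∞ (fun t => g * γ i t) := contMDiff_const.mul (hγ i)
      have h2 : ContMDiff 𝓘(ℝ, ℝ) 𝓘(ℝ, ℂ) ∞ (fun t => u ((g * γ i t : G) : G ⧸ K)) := hu.comp h1
      have h3 := h2.contDiff
      exact (h3.of_le (show (((2 : ℕ∞) : WithTop ℕ∞)) ≤ (((⊤ : ℕ∞) : WithTop ℕ∞)) from WithTop.coe_le_coe.2 le_top)).contDiffAt
    have h1 : ∀ i, iteratedDeriv 2 (fun t : ℝ => (f + h) ((g * γ i t : G) : G ⧸ K)) 0
        = iteratedDeriv 2 (fun t : ℝ => f ((g * γ i t : G) : G ⧸ K)) 0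
          + iteratedDeriv 2 (fun t : ℝ => h ((g * γ i t : G) : G ⧸ K)) 0 := fun i =>
      iteratedDeriv_fun_add (key f hf1 i) (key h hh1 i)
    rw [Finset.sum_congr rfl fun i _ => h1 i, Finset.sum_add_distrib, hf2, hh2, Pi.add_apply]
    ring
  zero_mem' := by
    refine ⟨contMDiff_const, fun g => ?_⟩
    simp
  smul_mem' := by
    rintro c f ⟨hf1, hf2⟩
    refine ⟨?_, fun g => ?_⟩
    · have h0 : ContDiff ℝ ∞ (fun z : ℂ => c * z) := contDiff_const.mul contDiff_id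
      exact h0.contMDiff.comp hf1
    · have h1 : ∀ i, iteratedDeriv 2 (fun t : ℝ => (c • f) ((g * γ i t : G) : G ⧸ K)) 0
          = c * iteratedDeriv 2 (fun t : ℝ => f ((g * γ i t : G) : G ⧸ K)) 0 := fun i =>
        iteratedDeriv_const_mul_field c _
      rw [Finset.sum_congr rfl fun i _ => h1 i, ← Finset.mul_sum, hf2, Pi.smul_apply, smul_eq_mul]
      ring

end concrete

section proofs

lemma not_lt_of {a b : ℕ → ℝ} (hb : Monotone b)
    (h : ∀ μ, {j | a j = μ}.encard = {j | b j = μ}.encard) {j : ℕ} (hj : ∀ i < j, a i = b i) :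
    ¬ a j < b j := by
  intro hlt
  set S : Set ℕ := {i | i < j ∧ a i = a j} with hS
  have hfin : S.Finite := (Set.finite_lt_nat j).subset fun i hi => hi.1
  have h1 : {i | b i = a j} ⊆ S := by
    intro i hi
    have hi' : b i = a j := hi
    have hij : i < j := by
      by_contra hcon
      have := hb (not_lt.1 hcon)
      linarith
    exact ⟨hij, by rw [hj i hij]; exact hi'⟩
  have h2 : insert j S ⊆ {i | a i = a j} := by
    intro i hi
    rcases hi with rfl | hi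
    · rfl
    · exact hi.2
  have hjS : j ∉ S := fun hjS => lt_irrefl _ hjS.1
  have h3 : (insert j S).encard = S.encard + 1 := Set.encard_insert_of_notMem hjS
  have h4 : S.encard + 1 ≤ S.encard := by
    rw [← h3]
    exact (Set.encard_le_encard h2).trans ((h (a j)).le.trans (Set.encard_le_encard h1))
  have h5 : S.encard ≠ ⊤ := Set.encard_ne_top_iff.2 hfin
  exact absurd h4 (not_le.2 ((ENat.lt_add_one_iff h5).2 le_rfl))

lemma unique_seq {a b : ℕ → ℝ} (ha : Monotone a) (hb : Monotone b)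
    (h : ∀ μ, {j | a j = μ}.encard = {j | b j = μ}.encard) : a = b := by
  funext j
  induction j using Nat.strong_induction_on with
  | _ j ih =>
    refine le_antisymm (not_lt.1 ?_) (not_lt.1 (not_lt_of hb h ih))
    exact not_lt_of ha (fun μ => (h μ).symm) fun i hi => (ih i hi).symm

variable {G X : Type*} [Group G] [MulAction G X] {V : ℝ → Submodule ℂ (X → ℂ)}

lemma spec_unique {Γ₁ Γ₂ : Subgroup G} (h : ∀ μ, mult V Γ₁ μ = mult V Γ₂ μ) {a b : ℕ → ℝ}
    (ha : IsSpectrum V Γ₁ a) (hb : IsSpectrum V Γ₂ b) : a = b :=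
  unique_seq ha.1 hb.1 fun μ => by rw [ha.2, hb.2, h]

/-- conjugate subgroups have the same multiplicities -/
lemma mult_conj (hV : ∀ (g : G) (μ : ℝ), ∀ f ∈ V μ, (fun x => f (g • x)) ∈ V μ) (D : Subgroup G)
    (a : G) (μ : ℝ) : mult V (D.map (MulAut.conj a).toMonoidHom) μ = mult V D μ := by
  have hmap : ∀ (g : G) (D D' : Subgroup G), (∀ δ ∈ D', g * δ * g⁻¹ ∈ D) →
      ∀ f ∈ (V μ ⊓ invariants D : Submodule ℂ (X → ℂ)),
      (fun x => f (g • x)) ∈ (V μ ⊓ invariants D' : Submodule ℂ (X → ℂ)) := by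
    rintro g D D' hD f ⟨hf1, hf2⟩
    refine ⟨hV g μ f hf1, fun δ hδ x => ?_⟩
    have := hf2 _ (hD δ hδ) (g • x)
    rw [← mul_smul, inv_mul_cancel_right, mul_smul] at this
    exact this
  let e : (V μ ⊓ invariants (D.map (MulAut.conj a).toMonoidHom) : Submodule ℂ (X → ℂ)) ≃ₗ[ℂ]
      (V μ ⊓ invariants D : Submodule ℂ (X → ℂ)) :=
    { toFun := fun f => ⟨fun x => (f : X → ℂ) (a • x), hmap a _ _ (fun δ hδ =>
        Subgroup.mem_map.2 ⟨δ, hδ, rfl⟩) f f.2⟩
      map_add' := fun f h => rfl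
      map_smul' := fun c f => rfl
      invFun := fun f => ⟨fun x => (f : X → ℂ) (a⁻¹ • x), hmap a⁻¹ _ _ (by
        rintro _ ⟨δ, hδ, rfl⟩
        have : a⁻¹ * (MulAut.conj a).toMonoidHom δ * a⁻¹⁻¹ = δ := by
          show a⁻¹ * (a * δ * a⁻¹) * a⁻¹⁻¹ = δ
          group
        rw [this]; exact hδ) f f.2⟩
      left_inv := fun f => by
        ext x
        show (f : X → ℂ) (a • a⁻¹ • x) = _
        rw [smul_inv_smul]
      right_inv := fun f => by
        ext x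
        show (f : X → ℂ) (a⁻¹ • a • x) = _
        rw [inv_smul_smul] }
  unfold mult
  rw [e.rank_eq]

end proofs

/-- **Property (F) for all compact Lie groups.** -/
theorem main {E : Type*} [NormedAddCommGroup E] [NormedSpace ℝ E] [FiniteDimensional ℝ E]
    {G : Type*} [TopologicalSpace G] [ChartedSpace E G] [Group G] [LieGroup 𝓘(ℝ, E) ∞ G]
    [CompactSpace G] [T2Space G] {X : Type*} [MulAction G X] (V : ℝ → Submodule ℂ (X → ℂ))
    (hV : ∀ (g : G) (μ : ℝ), ∀ f ∈ V μ, (fun x => f (g • x)) ∈ V μ) : PropertyF G V := by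
  classical
  haveI : IsTopologicalGroup G := topologicalGroup_of_lieGroup 𝓘(ℝ, E) ∞
  haveI : CompleteSpace E := FiniteDimensional.complete ℝ E
  obtain ⟨L⟩ := Pool.Agent.TH77.exists_LG (E := E) (G := G)
  intro ε hε
  obtain ⟨R, hR, hrep⟩ := H51.SY.reps L ⌈1 / ε⌉₊
  have hpair : ∀ D₁ D₂ : Subgroup G, ∃ N : ℕ, ∀ a b : ℕ → ℝ, IsSpectrum V D₁ a →
      IsSpectrum V D₂ b → (∀ j < N, a j = b j) → ∀ μ, mult V D₁ μ = mult V D₂ μ := by
    intro D₁ D₂
    by_cases h : ∃ a b : ℕ → ℝ, IsSpectrum V D₁ a ∧ IsSpectrum V D₂ b ∧ a ≠ b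
    · obtain ⟨a₀, b₀, ha₀, hb₀, hne⟩ := h
      obtain ⟨j, hj⟩ := Function.ne_iff.1 hne
      refine ⟨j + 1, fun a b ha hb hab => ?_⟩
      exfalso
      have h1 : a = a₀ := spec_unique (fun _ => rfl) ha ha₀
      have h2 : b = b₀ := spec_unique (fun _ => rfl) hb hb₀
      apply hj
      rw [← h1, ← h2]
      exact hab j (Nat.lt_succ_self j)
    · refine ⟨0, fun a b ha hb _ μ => ?_⟩
      have hab : a = b := by
        by_contra hne
        exact h ⟨a, b, ha, hb, hne⟩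
      rw [← ha.2, ← hb.2, hab]
  choose N hN using hpair
  obtain ⟨M, hM⟩ : ∃ M, ∀ D₁ ∈ R, ∀ D₂ ∈ R, N D₁ D₂ ≤ M := by
    have hfin : ((fun p : Subgroup G × Subgroup G => N p.1 p.2) '' (R ×ˢ R)).Finite :=
      (hR.prod hR).image _
    obtain ⟨M, hM⟩ := hfin.bddAbove
    exact ⟨M, fun D₁ h1 D₂ h2 => hM ⟨(D₁, D₂), ⟨h1, h2⟩, rfl⟩⟩
  have hcard : ∀ Γ : Subgroup G, Finite Γ → ε < 1 / (Nat.card Γ : ℝ) →
      Nat.card Γ ≤ ⌈1 / ε⌉₊ := by
    intro Γ hΓ h
    have h0 : 0 < Nat.card Γ := Nat.card_pos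
    have h0' : (0 : ℝ) < Nat.card Γ := by exact_mod_cast h0
    have h1 : (Nat.card Γ : ℝ) ≤ 1 / ε := by
      rw [le_div_iff₀ hε]
      rw [lt_div_iff₀ h0'] at h
      linarith
    exact_mod_cast h1.trans (Nat.le_ceil _)
  refine ⟨M, fun Γ₁ Γ₂ hf₁ hf₂ hc₁ hc₂ a b ha hb => ⟨fun h j _ => ?_, fun h => ?_⟩⟩
  · rw [spec_unique h ha hb]
  · obtain ⟨D₁, hD₁, a₁, he₁⟩ := hrep Γ₁ hf₁ (hcard Γ₁ hf₁ hc₁)
    obtain ⟨D₂, hD₂, a₂, he₂⟩ := hrep Γ₂ hf₂ (hcard Γ₂ hf₂ hc₂)
    have hm₁ : ∀ μ, mult V Γ₁ μ = mult V D₁ μ := fun μ => by rw [he₁, mult_conj hV]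
    have hm₂ : ∀ μ, mult V Γ₂ μ = mult V D₂ μ := fun μ => by rw [he₂, mult_conj hV]
    intro μ
    rw [hm₁, hm₂]
    refine hN D₁ D₂ a b ⟨ha.1, fun ν => by rw [ha.2, hm₁]⟩ ⟨hb.1, fun ν => by rw [hb.2, hm₂]⟩
      (fun j hj => h j (lt_of_lt_of_le hj (hM D₁ hD₁ D₂ hD₂))) μ

/-- **Q1.** Property (F) holds for every compact symmetric space; more generally for every compact
Lie group.

(1) Let `G` be a compact Lie group acting on a set `X` and let `(V μ)` be any family of vector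
spaces of complex functions on `X` which are invariant under `G`. Then property (F) holds. This
applies to a compact Riemannian manifold `X` on which `G` acts by isometries and to the spaces
`V μ` of smooth eigenfunctions of the Laplace-Beltrami operator of `X`.

(2) In particular property (F) holds for every homogeneous space `G ⧸ K`, with the
Laplace-Beltrami operator written out. -/
theorem result :
    (∀ (E : Type) [NormedAddCommGroup E] [NormedSpace ℝ E] [FiniteDimensional ℝ E]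
      (G : Type) [TopologicalSpace G] [ChartedSpace E G] [Group G] [LieGroup 𝓘(ℝ, E) ∞ G]
      [CompactSpace G] [T2Space G] (X : Type) [MulAction G X] (V : ℝ → Submodule ℂ (X → ℂ)),
      (∀ (g : G) (μ : ℝ), ∀ f ∈ V μ, (fun x => f (g • x)) ∈ V μ) → PropertyF G V) ∧
    (∀ (E : Type) [NormedAddCommGroup E] [NormedSpace ℝ E] [FiniteDimensional ℝ E]
      (G : Type) [TopologicalSpace G] [ChartedSpace E G] [Group G] [LieGroup 𝓘(ℝ, E) ∞ G]
      [CompactSpace G] [T2Space G] (K : Subgroup G) (d : ℕ) (γ : Fin d → ℝ → G)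
      (hγ : ∀ i, ContMDiff 𝓘(ℝ, ℝ) 𝓘(ℝ, E) ∞ (γ i)),
      (∀ i s t, γ i (s + t) = γ i s * γ i t) →
      PropertyF G (laplaceEigenspace (E := E) K γ hγ)) := by
  refine ⟨fun E _ _ _ G _ _ _ _ _ _ X _ V hV => main (E := E) V hV, ?_⟩
  intro E _ _ _ G _ _ _ _ _ _ K d γ hγ _
  refine main (E := E) _ ?_
  rintro g μ f ⟨hf1, hf2⟩
  refine ⟨?_, fun h => ?_⟩
  · have h1 : ContMDiff 𝓘(ℝ, E) 𝓘(ℝ, E) ∞ (fun x : G => g * x) := contMDiff_mul_left
    exact hf1.comp h1
  · have h2 := hf2 (g * h)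
    simp only [mul_assoc] at h2
    exact h2

end Pool.Agent.Results.MP_646617_gt.AllCompactSymmetric
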